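import Pool.Agent.H749R4.Mach

/-!
# Continuum many subgroups of a free group with the same prescribed cogrowth series
-/

set_option autoImplicit false

namespace Pool.Agent.Y179.CG

open H749.Cog FreeGroup PowerSeries

section prefixes

theorem prefix_of_notMem {α : Type*} {L A B : List α} {b : α} (h : L <+: A ++ b :: B)
    (hb : b ∉ L) : L <+: A := by
  by_cases hl : L.length ≤ A.length
  · exact List.prefix_of_prefix_length_le h (List.prefix_append _ _) hl
  · exfalso
    apply hb
    have h1 : A ++ [b] <+: A ++ b :: B := by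
      have : A ++ b :: B = (A ++ [b]) ++ B := by simp
      rw [this]
      exact List.prefix_append _ _
    have h2 : A ++ [b] <+: L := List.prefix_of_prefix_length_le h1 h (by simp; omega)
    exact h2.subset (by simp)

variable {I J : Type*} [DecidableEq I] [DecidableEq J]

/-- some nontrivial element of `K` begins with the letters of `w` -/
def Pre (K : Subgroup (FreeGroup (I ⊕ J))) (w : List I) : Prop :=
  ∃ h ∈ K, h ≠ 1 ∧ (w.map fun i => ((Sum.inl i : I ⊕ J), true)) <+: h.toWord

variable {St : Type*} (step : St → I → St) (lp : St → J → ℕ)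

theorem pre_down (s : St) (i : I) (w : List I) (h : Pre (KK step lp s) (i :: w)) :
    Pre (KK step lp (step s i)) w := by
  obtain ⟨g, hg, hg1, hpre⟩ := h
  rw [KK_eq] at hg
  have hL := KK_slotC step lp s
  obtain ⟨σ, h, hh, hh1, k, -, hns, rfl⟩ := decomp hL hg hg1
  have hw : (h * k).toWord = h.toWord ++ k.toWord := toWord_mul_of (hL.nc hh hh1 hns)
  obtain ⟨ε, he⟩ := hL σ h hh hh1
  have hne : h.toWord ≠ [] := by rwa [Ne, toWord_eq_nil_iff]
  rw [hw] at hpre
  obtain ⟨x, t, hxt⟩ := List.exists_cons_of_ne_nil hne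
  have hx : x = (σ, ε) := by
    have : h.toWord.head? = some (σ, ε) := he
    rw [hxt] at this
    simpa using this
  rw [hxt, List.map_cons, List.cons_append, List.cons_prefix_cons] at hpre
  have hσ : σ = Sum.inl i := by
    have := congrArg Prod.fst (hpre.1.trans hx)
    exact this.symm
  subst hσ
  obtain ⟨g', hg', he'⟩ := hh
  have e : (MulAut.conj (FreeGroup.of (Sum.inl i : I ⊕ J))).toMonoidHom g'
      = FreeGroup.of (Sum.inl i) * g' * (FreeGroup.of (Sum.inl i))⁻¹ := rfl
  rw [e] at he'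
  have hg1' : g' ≠ 1 := by
    rintro rfl
    apply hh1
    rw [← he']
    group
  have hgood := KK_good step lp (step s i)
  have hword := conj_word i hg1' (hgood g' hg') (hgood g'⁻¹ (Subgroup.inv_mem _ hg'))
  rw [he', hxt] at hword
  have ht : t = g'.toWord ++ [(Sum.inl i, false)] := (List.cons.inj hword).2
  refine ⟨g', hg', hg1', ?_⟩
  have hp := hpre.2
  rw [ht, List.append_assoc] at hp
  refine prefix_of_notMem (b := ((Sum.inl i : I ⊕ J), false)) (B := k.toWord) hp ?_
  intro hmem
  rw [List.mem_map] at hmem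
  obtain ⟨_, _, h2⟩ := hmem
  exact absurd (congrArg Prod.snd h2) (by simp)

theorem pre_up (s : St) (i : I) (w : List I) (h : Pre (KK step lp (step s i)) w) :
    Pre (KK step lp s) (i :: w) := by
  obtain ⟨g, hg, hg1, hpre⟩ := h
  have hgood := KK_good step lp (step s i)
  have hword := conj_word i hg1 (hgood g hg) (hgood g⁻¹ (Subgroup.inv_mem _ hg))
  refine ⟨FreeGroup.of (Sum.inl i) * g * (FreeGroup.of (Sum.inl i))⁻¹, ?_, ?_, ?_⟩
  · rw [KK_eq]
    exact Subgroup.mem_iSup_of_mem (Sum.inl i) ⟨g, hg, rfl⟩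
  · intro h0
    rw [h0] at hword
    simp at hword
  · rw [hword, List.map_cons, List.cons_prefix_cons]
    exact ⟨rfl, hpre.trans (List.prefix_append _ _)⟩

theorem pre_iff (s : St) (i : I) (w : List I) :
    Pre (KK step lp s) (i :: w) ↔ Pre (KK step lp (step s i)) w :=
  ⟨pre_down step lp s i w, pre_up step lp s i w⟩

end prefixes

section bits

/-- `f` on all indices but one: the last (`β = false`) or the first (`β = true`) -/
def ins {α : Type*} {P : ℕ} (β : Bool) (f : Fin P → α) (d : α) : Fin (P + 1) → α :=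
  if β then Fin.cons d f else Fin.snoc f d

/-- the position of the old index -/
def pos {P : ℕ} (β : Bool) (i : Fin P) : Fin (P + 1) := if β then i.succ else i.castSucc

theorem ins_pos {α : Type*} {P : ℕ} (β : Bool) (f : Fin P → α) (d : α) (i : Fin P) :
    ins β f d (pos β i) = f i := by
  cases β
  · show (Fin.snoc f d : Fin (P + 1) → α) i.castSucc = f i
    exact Fin.snoc_castSucc (α := fun _ => α) d f i
  · show (Fin.cons d f : Fin (P + 1) → α) i.succ = f i
    exact Fin.cons_succ (α := fun _ => α) d f i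

theorem ins_cases {α : Type*} {P : ℕ} (β : Bool) (i : Fin (P + 1)) :
    (∃ j, i = pos β j) ∨ ∀ (f : Fin P → α) (d : α), ins β f d i = d := by
  cases β
  · induction i using Fin.lastCases with
    | last => exact Or.inr fun f d => Fin.snoc_last (α := fun _ => α) d f
    | cast j => exact Or.inl ⟨j, rfl⟩
  · induction i using Fin.cases with
    | zero => exact Or.inr fun f d => Fin.cons_zero (α := fun _ => α) d f
    | succ j => exact Or.inl ⟨j, rfl⟩

theorem ins_rel {α γ : Type*} {P : ℕ} (β : Bool) (f : Fin P → α) (d : α) (g : Fin P → γ) (e : γ)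
    (R : α → γ → Prop) (h : ∀ j, R (f j) (g j)) (h0 : R d e) (i : Fin (P + 1)) :
    R (ins β f d i) (ins β g e i) := by
  cases β
  · induction i using Fin.lastCases with
    | last =>
      show R ((Fin.snoc f d : Fin (P + 1) → α) _) ((Fin.snoc g e : Fin (P + 1) → γ) _)
      rw [Fin.snoc_last, Fin.snoc_last]
      exact h0
    | cast j =>
      show R ((Fin.snoc f d : Fin (P + 1) → α) _) ((Fin.snoc g e : Fin (P + 1) → γ) _)
      rw [Fin.snoc_castSucc, Fin.snoc_castSucc]
      exact h j
  · induction i using Fin.cases with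
    | zero => exact h0
    | succ j => exact h j

theorem sum_ins {P : ℕ} (β : Bool) (y : Fin P → ℤ⟦X⟧) : ∑ i, ins β y 0 i = ∑ i, y i := by
  cases β
  · show ∑ i, (Fin.snoc y 0 : Fin (P + 1) → ℤ⟦X⟧) i = _
    rw [Fin.sum_univ_castSucc]
    simp
  · show ∑ i, (Fin.cons 0 y : Fin (P + 1) → ℤ⟦X⟧) i = _
    rw [Fin.sum_univ_succ]
    simp

/-- the first index with property `A` has different positions -/
theorem pos_first {P : ℕ} {α : Type*} (f : Fin P → α) (d : α) (h : ∃ i, f i ≠ d) :
    ∃ i, f i ≠ d ∧ ins true f d (pos false i) = d := by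
  classical
  have hex : ∃ n : ℕ, ∃ hn : n < P, f ⟨n, hn⟩ ≠ d := by
    obtain ⟨i, hi⟩ := h
    exact ⟨i.1, i.2, hi⟩
  obtain ⟨hn, hf⟩ := Nat.find_spec hex
  have hmin : ∀ k, k < Nat.find hex → ∀ hk : k < P, f ⟨k, hk⟩ = d := by
    intro k hk hkP
    by_contra hne
    exact Nat.find_min hex hk ⟨hkP, hne⟩
  generalize Nat.find hex = n at hn hf hmin
  refine ⟨⟨n, hn⟩, hf, ?_⟩
  cases n with
  | zero =>
    show (Fin.cons d f : Fin (P + 1) → α) (Fin.castSucc ⟨0, hn⟩) = d
    have : (Fin.castSucc ⟨0, hn⟩ : Fin (P + 1)) = 0 := rfl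
    rw [this, Fin.cons_zero]
  | succ k =>
    show (Fin.cons d f : Fin (P + 1) → α) (Fin.castSucc ⟨k + 1, hn⟩) = d
    have hk : k < P := by omega
    have : (Fin.castSucc ⟨k + 1, hn⟩ : Fin (P + 1)) = Fin.succ ⟨k, hk⟩ := rfl
    rw [this, Fin.cons_succ]
    exact hmin k (Nat.lt_succ_self k) hk

variable {P Q : ℕ} {St : Type} (step : Option St → Fin P → Option St)
  (lp : Option St → Fin 3 × Fin Q → ℕ)

/-- the machine with bits -/
def bstep (s : Option St × (ℕ → Bool)) (i : Fin (P + 1)) : Option St × (ℕ → Bool) :=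
  (ins (s.2 0) (step s.1) none i, fun n => s.2 (n + 1))

/-- its loops -/
def blp (s : Option St × (ℕ → Bool)) : Fin 3 × Fin Q → ℕ := lp s.1

variable (hdead : ∀ ε, KK (bstep step) (blp lp) (none, ε) = ⊥)
  (halive : ∀ s ε, s ≠ none → ∃ g ∈ KK (bstep step) (blp lp) (s, ε), g ≠ 1)
  (hch : ∀ s, s ≠ none → ∃ i, step s i ≠ none)

include hdead halive hch in
theorem bit_zero (s : Option St) (hs : s ≠ none) (ε ε' : ℕ → Bool)
    (h : ∀ w, Pre (KK (bstep step) (blp lp) (s, ε)) w ↔ Pre (KK (bstep step) (blp lp) (s, ε')) w) :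
    ε 0 = ε' 0 := by
  have key : ∀ ε ε' : ℕ → Bool, (∀ w, Pre (KK (bstep step) (blp lp) (s, ε)) w ↔
      Pre (KK (bstep step) (blp lp) (s, ε')) w) → ε 0 = false → ε' 0 = true → False := by
    intro ε ε' h h0 h1
    obtain ⟨i, hi, hi2⟩ := pos_first (step s) none (hch s hs)
    have h2 : Pre (KK (bstep step) (blp lp) (s, ε)) [pos false i] := by
      rw [pre_iff]
      have e : bstep step (s, ε) (pos false i) = (step s i, fun n => ε (n + 1)) := by
        show (ins (ε 0) (step s) none (pos false i), _) = _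
        rw [h0, ins_pos]
      rw [e]
      obtain ⟨g, hg, hg1⟩ := halive (step s i) (fun n => ε (n + 1)) hi
      exact ⟨g, hg, hg1, by simp⟩
    rw [h, pre_iff] at h2
    have e : bstep step (s, ε') (pos false i) = (none, fun n => ε' (n + 1)) := by
      show (ins (ε' 0) (step s) none (pos false i), _) = _
      rw [h1, hi2]
    rw [e] at h2
    obtain ⟨g, hg, hg1, -⟩ := h2
    rw [hdead, Subgroup.mem_bot] at hg
    exact hg1 hg
  cases h0 : ε 0 <;> cases h1 : ε' 0
  · rfl
  · exact (key ε ε' h h0 h1).elim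
  · exact (key ε' ε (fun w => (h w).symm) h1 h0).elim
  · rfl

include hdead halive hch in
theorem bit_n (n : ℕ) : ∀ (s : Option St), s ≠ none → ∀ ε ε' : ℕ → Bool,
    (∀ w, Pre (KK (bstep step) (blp lp) (s, ε)) w ↔ Pre (KK (bstep step) (blp lp) (s, ε')) w) →
    ε n = ε' n := by
  induction n with
  | zero => intro s hs ε ε' h; exact bit_zero step lp hdead halive hch s hs ε ε' h
  | succ n ih =>
    intro s hs ε ε' h
    have h0 := bit_zero step lp hdead halive hch s hs ε ε' h
    obtain ⟨i, hi⟩ := hch s hs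
    have e : ∀ δ : ℕ → Bool, δ 0 = ε 0 →
        bstep step (s, δ) (pos (ε 0) i) = (step s i, fun n => δ (n + 1)) := by
      intro δ hδ
      show (ins (δ 0) (step s) none (pos (ε 0) i), _) = _
      rw [hδ, ins_pos]
    refine ih (step s i) hi (fun n => ε (n + 1)) (fun n => ε' (n + 1)) ?_
    intro w
    have h1 := h (pos (ε 0) i :: w)
    rw [pre_iff, pre_iff, e ε rfl, e ε' h0.symm] at h1
    exact h1

include hdead halive hch in
theorem bits_injective (s : Option St) (hs : s ≠ none) :
    Function.Injective fun ε : ℕ → Bool => KK (bstep step) (blp lp) (s, ε) := by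
  intro ε ε' h
  have h' : KK (bstep step) (blp lp) (s, ε) = KK (bstep step) (blp lp) (s, ε') := h
  funext n
  exact bit_n step lp hdead halive hch n s hs ε ε' (fun w => by rw [h'])

end bits

theorem eq_bot_of_gf {S : Type*} [DecidableEq S] [Finite S] (H : Subgroup (FreeGroup S))
    (h : gf (H : Set (FreeGroup S)) = 1) : H = ⊥ := by
  rw [Subgroup.eq_bot_iff_forall]
  intro g hg
  by_contra hg1
  have hn : g.norm ≠ 0 := by rwa [Ne, FreeGroup.norm_eq_zero]
  have h1 := congrArg (coeff g.norm) h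
  rw [coeff_gf, coeff_one, if_neg hn] at h1
  have h2 : g ∈ sph (H : Set (FreeGroup S)) g.norm := mem_sph.2 ⟨hg, rfl⟩
  have h3 : (sph (H : Set (FreeGroup S)) g.norm).card = 0 := by exact_mod_cast h1
  rw [Finset.card_eq_zero] at h3
  rw [h3] at h2
  exact absurd h2 (Finset.notMem_empty g)

theorem exists_many {P Q : ℕ} (hP : 1020408 ≤ P) (hQ : 10204 ≤ Q) (N : ℕ) (U E : ℤ⟦X⟧)
    (hinv : Inv N U E) :
    ∃ H : (ℕ → Bool) → Subgroup (FreeGroup (Fin (P + 1) ⊕ (Fin 3 × Fin Q))),
      Function.Injective H ∧ (∀ ε, ¬ (H ε).FG) ∧ ∀ ε,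
      (Vd E - 2 * X ^ N * U) * gf (H ε : Set (FreeGroup (Fin (P + 1) ⊕ (Fin 3 × Fin Q)))) = Vd E := by
  choose step lp y b h1 h2 h3 h4 h5 using fun s => state_step hP hQ s
  have hf0 : ∀ s, constantCoeff (fval s) = 0 := by
    intro s
    cases s with
    | none => simp [fval]
    | some n =>
      have hN := n.2.hN
      simp [fval, show n.1.1 ≠ 0 by omega]
  have key : ∀ s : Option Node × (ℕ → Bool),
      GG (bstep step) (blp lp) s * (1 - fval s.1) = 1 := by
    intro s
    refine uniq_series (bstep step) (blp lp) (fun s => fval s.1) (fun s => b s.1)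
      (fun s => ins (s.2 0) (y s.1) 0) ?_ ?_ ?_ ?_ ?_ s
    · intro s j hj
      exact h1 s.1 j hj
    · intro s j hj
      exact h2 s.1 j hj
    · intro s
      exact hf0 s.1
    · intro s i
      exact ins_rel (s.2 0) (step s.1) none (y s.1) 0
        (fun a c => c * (1 - (1 - X ^ 2) * fval a) = X ^ 2 * fval a) (h3 s.1)
        (by simp [fval]) i
    · intro s
      show fval s.1 = ∑ i, ins (s.2 0) (y s.1) 0 i + ∑ j, b s.1 j
      rw [sum_ins]
      exact h4 s.1
  have hdead : ∀ ε, KK (bstep step) (blp lp) (none, ε) = ⊥ := by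
    intro ε
    apply eq_bot_of_gf
    have := key (none, ε)
    simpa [fval, GG] using this
  have hlp : ∀ (s : Option Node) (ε : ℕ → Bool), s ≠ none →
      ∃ j, (FreeGroup.of (Sum.inr j) ^ lp s j :
        FreeGroup (Fin (P + 1) ⊕ (Fin 3 × Fin Q))) ∈ KK (bstep step) (blp lp) (s, ε) ∧
        0 < lp s j := by
    intro s ε hs
    obtain ⟨-, j, hj⟩ := h5 s hs
    refine ⟨j, ?_, hj⟩
    rw [KK_eq]
    exact Subgroup.mem_iSup_of_mem (Sum.inr j) (Subgroup.mem_zpowers _)
  have halive : ∀ (s : Option Node) (ε : ℕ → Bool), s ≠ none →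
      ∃ g ∈ KK (bstep step) (blp lp) (s, ε), g ≠ 1 := by
    intro s ε hs
    obtain ⟨j, hj, hpos⟩ := hlp s ε hs
    refine ⟨_, hj, ?_⟩
    intro h0
    have h6 := fl_of_pow (Sum.inr j : Fin (P + 1) ⊕ (Fin 3 × Fin Q)) hpos
    rw [h0, fl_one] at h6
    exact absurd h6 (by simp)
  have hch : ∀ s, s ≠ none → ∃ i, step s i ≠ none := fun s hs => (h5 s hs).1
  let s0 : Option Node := some ⟨(N, U, E), hinv⟩
  have hs0 : s0 ≠ none := Option.some_ne_none _
  refine ⟨fun ε => KK (bstep step) (blp lp) (s0, ε),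
    bits_injective step lp hdead halive hch s0 hs0, ?_, ?_⟩
  · intro ε
    apply KK_not_fg
    have : ∀ d, ∃ w : List (Fin (P + 1)), w.length = d ∧
        (run (bstep step) (s0, ε) w).1 ≠ none := by
      intro d
      induction d with
      | zero => exact ⟨[], rfl, hs0⟩
      | succ d ih =>
        obtain ⟨w, hw, hr⟩ := ih
        obtain ⟨i, hi⟩ := hch _ hr
        refine ⟨w ++ [pos ((run (bstep step) (s0, ε) w).2 0) i], by simp [hw], ?_⟩
        rw [run, List.foldl_append]
        show (bstep step (run (bstep step) (s0, ε) w) _).1 ≠ none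
        show ins _ _ none _ ≠ none
        rw [ins_pos]
        exact hi
    intro d
    obtain ⟨w, hw, hr⟩ := this d
    exact ⟨w, hw, (h5 _ hr).2⟩
  · intro ε
    have hv : Vd E * vi E = 1 := Vd_mul (hinv.hE0 0 (by norm_num))
    have e2 : fval s0 = 2 * X ^ N * U * vi E := rfl
    have hk := key (s0, ε)
    rw [e2, GG] at hk
    set G := gf (KK (bstep step) (blp lp) (s0, ε) :
      Set (FreeGroup (Fin (P + 1) ⊕ (Fin 3 × Fin Q))))
    linear_combination (Vd E) * hk + (2 * X ^ N * U * G) * hv

/-- transport to another alphabet -/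
theorem transport_map {S S' : Type} [DecidableEq S] [DecidableEq S'] (e : S ≃ S')
    (H : Subgroup (FreeGroup S)) (hH : ¬ H.FG) :
    ¬ (H.map (FreeGroup.freeGroupCongr e).toMonoidHom).FG ∧
    ∀ n, Nat.card {h : FreeGroup S' // h ∈ H.map (FreeGroup.freeGroupCongr e).toMonoidHom ∧
      h.norm = n} = Nat.card {h : FreeGroup S // h ∈ H ∧ h.norm = n} := by
  let φ := FreeGroup.freeGroupCongr e
  refine ⟨?_, ?_⟩
  · intro hfg
    apply hH
    rw [← Group.fg_iff_subgroup_fg] at hfg ⊢
    let ψ := H.equivMapOfInjective φ.toMonoidHom φ.injective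
    exact Group.fg_of_surjective (f := ψ.symm.toMonoidHom) ψ.symm.surjective
  · intro n
    symm
    apply Nat.card_congr
    refine φ.toEquiv.subtypeEquiv ?_
    intro g
    have h1 : (φ.toEquiv g).norm = g.norm := norm_congr e g
    rw [h1]
    constructor
    · rintro ⟨h, hn⟩
      exact ⟨⟨g, h, rfl⟩, hn⟩
    · rintro ⟨⟨g', hg', he⟩, hn⟩
      have : g' = g := φ.injective he
      exact ⟨this ▸ hg', hn⟩

section countable

theorem countable_aut (m : ℕ) : Countable (FreeGroup (Fin m) ≃* FreeGroup (Fin m)) := by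
  have h : Function.Injective fun φ : FreeGroup (Fin m) ≃* FreeGroup (Fin m) =>
      fun i : Fin m => φ (FreeGroup.of i) := by
    intro φ ψ h
    apply MulEquiv.ext
    have : φ.toMonoidHom = ψ.toMonoidHom := FreeGroup.ext_hom _ _ (fun i => congrFun h i)
    exact fun x => DFunLike.congr_fun this x
  exact h.countable

/-- a large family which meets every class in a countable set has a large subfamily of pairwise
inequivalent members -/
theorem exists_inequivalent {T : Type} (r : Setoid T) (hr : ∀ x, {y | r.r x y}.Countable)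
    (f : (ℕ → Bool) → T) (hf : Function.Injective f) :
    ∃ g : (ℕ → Bool) → (ℕ → Bool), ∀ ε ε', ε ≠ ε' → ¬ r.r (f (g ε)) (f (g ε')) := by
  classical
  let q : (ℕ → Bool) → Quotient r := fun ε => Quotient.mk r (f ε)
  let R := Set.range q
  have hfib : ∀ c : R, Cardinal.mk {ε // (⟨q ε, Set.mem_range_self ε⟩ : R) = c} ≤
      Cardinal.aleph0 := by
    rintro ⟨c, ε0, rfl⟩
    rw [Cardinal.mk_le_aleph0_iff]
    have hc : (f ⁻¹' {y | r.r (f ε0) y}).Countable := (hr (f ε0)).preimage hf
    have hsub : Set.Countable {ε : ℕ → Bool | (⟨q ε, Set.mem_range_self ε⟩ : R) =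
        ⟨q ε0, Set.mem_range_self ε0⟩} := by
      apply hc.mono
      intro ε hε
      have h1 : q ε = q ε0 := congrArg Subtype.val hε
      exact r.symm (Quotient.exact h1)
    exact hsub
  have h1 : Cardinal.mk (ℕ → Bool) ≤ Cardinal.mk R * Cardinal.aleph0 := by
    rw [← Cardinal.mk_congr (Equiv.sigmaFiberEquiv
      (fun ε : ℕ → Bool => (⟨q ε, Set.mem_range_self ε⟩ : R))), Cardinal.mk_sigma]
    refine (Cardinal.sum_le_mk_mul_iSup _).trans ?_
    gcongr
    exact ciSup_le' hfib
  have hc : Cardinal.mk (ℕ → Bool) = Cardinal.continuum := by simp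
  have h2 : Cardinal.mk (ℕ → Bool) ≤ Cardinal.mk R := by
    by_contra hlt
    rw [not_le, hc] at hlt
    have h3 : Cardinal.mk R * Cardinal.aleph0 < Cardinal.continuum :=
      Cardinal.mul_lt_of_lt Cardinal.aleph0_le_continuum hlt Cardinal.aleph0_lt_continuum
    rw [hc] at h1
    exact absurd h1 (not_le.2 h3)
  obtain ⟨j⟩ := Cardinal.le_def _ _ |>.1 h2
  have hsel : ∀ c : R, ∃ ε, q ε = c.1 := fun c => c.2
  choose sel hsel using hsel
  refine ⟨fun ε => sel (j ε), ?_⟩
  intro ε ε' hne hrr
  apply hne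
  apply j.injective
  apply Subtype.ext
  rw [← hsel (j ε), ← hsel (j ε')]
  exact Quotient.sound hrr

end countable

end Pool.Agent.Y179.CG
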